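import Pool.Agent.H941R3.Beur.N2a

set_option autoImplicit false
set_option maxHeartbeats 4000000

open MeasureTheory Topology Set Filter
open scoped ENNReal Pointwise

namespace Pool.Agent.H941R3.Beur
open _root_.Beur

variable {G : Type*} [Group G] [TopologicalSpace G] [IsTopologicalGroup G]
  [LocallyCompactSpace G] [T2Space G] [MeasurableSpace G] [BorelSpace G]

section wt
variable {μ : Measure G} {ω : G → ℝ}

lemma W_meas (hω : IsWeight ω) : Measurable (fun s => ENNReal.ofReal (ω s)) :=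
  hω.cont.measurable.ennreal_ofReal

lemma ae_iff_w (hω : IsWeight ω) {p : G → Prop} :
    (∀ᵐ x ∂(μ.withDensity (fun s => ENNReal.ofReal (ω s))), p x) ↔ ∀ᵐ x ∂μ, p x := by
  rw [ae_withDensity_iff (W_meas hω)]
  constructor
  · intro h
    filter_upwards [h] with x hx
    refine hx ?_
    simp [hω.pos x]
  · intro h
    filter_upwards [h] with x hx _ using hx

lemma norm_le_w (hω : IsWeight ω) {f : L1w μ ω} {h : G → ℝ≥0∞} {r : ℝ} (hr : 0 ≤ r)
    (hle : ∀ᵐ x ∂μ, ENNReal.ofReal (ω x) * ‖(f : G → ℂ) x‖ₑ ≤ h x)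
    (hh : ∫⁻ x, h x ∂μ ≤ ENNReal.ofReal r) : ‖f‖ ≤ r := by
  rw [Lp.norm_def, eLpNorm_one_eq_lintegral_enorm]
  refine ENNReal.toReal_le_of_le_ofReal hr (le_trans ?_ hh)
  rw [lintegral_withDensity_eq_lintegral_mul _ (W_meas hω) (Lp.stronglyMeasurable f).enorm]
  exact lintegral_mono_ae hle

end wt

lemma unif_cont {c : G → ℂ} (hc : Continuous c) (hcs : HasCompactSupport c) {V₀ : Set G}
    (hV₀ : IsCompact V₀) (hV₀n : V₀ ∈ 𝓝 (1 : G)) {ε : ℝ} (hε : 0 < ε) :
    ∃ V ∈ 𝓝 (1 : G), V ⊆ V₀ ∧ ∀ x : G, ∀ y ∈ V,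
      (‖c (x * y) - c x‖ ≤ ε ∧ (x ∉ (tsupport c) * V₀⁻¹ → c (x * y) - c x = 0)) := by
  set K' := (tsupport c) * V₀⁻¹ with hK'
  have hKc : IsCompact K' := hcs.isCompact.mul hV₀.inv
  have hout : ∀ x : G, ∀ y ∈ V₀, x ∉ K' → c (x * y) - c x = 0 := by
    intro x y hy hx
    have h1 : c x = 0 := by
      by_contra h
      refine hx ⟨x, subset_tsupport _ h, 1, ?_, mul_one x⟩
      rw [Set.mem_inv, inv_one]; exact mem_of_mem_nhds hV₀n
    have h2 : c (x * y) = 0 := by
      by_contra h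
      refine hx ⟨x * y, subset_tsupport _ h, y⁻¹, ?_, by simp⟩
      rw [Set.mem_inv, inv_inv]; exact hy
    rw [h1, h2, sub_zero]
  have hopen : IsOpen {p : G × G | ‖c (p.1 * p.2) - c p.1‖ < ε} := by
    refine isOpen_lt ?_ continuous_const
    fun_prop
  obtain ⟨u, v, hu, hv, hKu, h1v, huv⟩ := generalized_tube_lemma hKc (isCompact_singleton (x := (1 : G)))
    hopen (by
      rintro ⟨x, y⟩ ⟨-, hy⟩
      simp only [mem_singleton_iff] at hy
      simp [hy, hε])
  refine ⟨v ∩ V₀, inter_mem (hv.mem_nhds (h1v rfl)) hV₀n, inter_subset_right, ?_⟩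
  rintro x y ⟨hy1, hy2⟩
  refine ⟨?_, hout x y hy2⟩
  by_cases hx : x ∈ K'
  · have h := huv (show (x, y) ∈ u ×ˢ v from ⟨hKu hx, hy1⟩)
    exact (show ‖c (x * y) - c x‖ < ε from h).le
  · rw [hout x y hy2 hx, norm_zero]; exact hε.le

lemma conv_eq (μ : Measure G) [μ.IsHaarMeasure] [μ.Regular] {c a b : G → ℂ}
    (hcs : HasCompactSupport c) (ha : a =ᵐ[μ] c) {B : Set G}
    (hBs : B⁻¹ = B) (hBm : MeasurableSet B)
    (hb : b =ᵐ[μ] B.indicator (fun _ => (((μ B).toReal)⁻¹ : ℂ))) (x : G) :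
    ∫ y, a y * b (y⁻¹ * x) ∂μ = (((μ B).toReal)⁻¹ : ℂ) * ∫ z in B, c (x * z) ∂μ := by
  set ind : G → ℂ := B.indicator (fun _ => (((μ B).toReal)⁻¹ : ℂ)) with hind
  set N : Set G := {z | b z ≠ ind z} with hN
  have hN0 : μ N = 0 := ae_iff.mp hb
  have hL : IsCompact ((fun y : G => y⁻¹ * x) '' (tsupport c)) :=
    hcs.isCompact.image (by fun_prop)
  have h1 : ∀ᵐ y ∂μ, c y ≠ 0 → b (y⁻¹ * x) = ind (y⁻¹ * x) := by
    have h2 : μ ((fun y => x⁻¹ * y) ⁻¹' ((N ∩ ((fun y : G => y⁻¹ * x) '' (tsupport c)))⁻¹)) = 0 := by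
      rw [measure_preimage_mul]
      exact inv_null μ hN0 hL
    rw [ae_iff]
    refine measure_mono_null ?_ h2
    intro y hy
    simp only [mem_ofPred_eq] at hy
    push Not at hy
    rw [mem_preimage, Set.mem_inv, mul_inv_rev, inv_inv]
    exact ⟨hy.2, ⟨y, subset_tsupport _ hy.1, rfl⟩⟩
  have h3 : ∫ y, a y * b (y⁻¹ * x) ∂μ = ∫ y, c y * ind (y⁻¹ * x) ∂μ := by
    refine integral_congr_ae ?_
    filter_upwards [ha, h1] with y hy1 hy2
    rw [hy1]
    by_cases h : c y = 0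
    · rw [h]; simp
    · rw [hy2 h]
  rw [h3]
  have h4 : ∀ y, c y * ind (y⁻¹ * x) = (fun z => c (x * z) * ind z) (x⁻¹ * y) := by
    intro y
    have h5 : ind (y⁻¹ * x) = ind (x⁻¹ * y) := by
      have h6 : y⁻¹ * x ∈ B ↔ x⁻¹ * y ∈ B := by
        have h7 : y⁻¹ * x ∈ B⁻¹ ↔ x⁻¹ * y ∈ B := by
          rw [Set.mem_inv, mul_inv_rev, inv_inv]
        rwa [hBs] at h7
      by_cases h8 : x⁻¹ * y ∈ B
      · rw [hind, indicator_of_mem h8, indicator_of_mem (h6.mpr h8)]
      · rw [hind, indicator_of_notMem h8, indicator_of_notMem (fun h => h8 (h6.mp h))]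
    show c y * ind (y⁻¹ * x) = c (x * (x⁻¹ * y)) * ind (x⁻¹ * y)
    rw [h5]
    congr 2
    group
  simp_rw [h4]
  rw [integral_mul_left_eq_self (fun z => c (x * z) * ind z) x⁻¹, ← integral_const_mul,
    ← integral_indicator hBm]
  refine integral_congr_ae (Eventually.of_forall (fun z => ?_))
  by_cases hz : z ∈ B
  · simp only [hind, indicator_of_mem hz]; ring
  · simp only [hind, indicator_of_notMem hz, mul_zero]

lemma dense_cc (μ : Measure G) [IsFiniteMeasureOnCompacts μ] [μ.Regular] {f : G → ℂ}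
    (hf : MemLp f 1 μ) {ε : ℝ≥0∞} (hε : ε ≠ 0) :
    ∃ g : G → ℂ, HasCompactSupport g ∧ eLpNorm (f - g) 1 μ ≤ ε ∧ Continuous g := by
  suffices H : ∃ g : G → ℂ, eLpNorm (f - g) 1 μ ≤ ε ∧ (Continuous g ∧ HasCompactSupport g) by
    obtain ⟨g, h1, h2, h3⟩ := H
    exact ⟨g, h3, h1, h2⟩
  refine hf.induction_dense ENNReal.one_ne_top (fun g => Continuous g ∧ HasCompactSupport g)
    ?_ ?_ ?_ hε
  · intro c t ht htμ ε hε
    obtain ⟨η, ηpos, hη⟩ :
        ∃ η : NNReal, 0 < η ∧ ∀ s : Set G, μ s ≤ η → eLpNorm (s.indicator fun _x => c) 1 μ ≤ ε :=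
      exists_eLpNorm_indicator_le ENNReal.one_ne_top c hε
    have hη2 : ((η / 2 : NNReal) : ℝ≥0∞) ≠ 0 := by
      simp [ηpos.ne']
    obtain ⟨s, st, s_compact, s_closed, μs⟩ :
        ∃ s, s ⊆ t ∧ IsCompact s ∧ IsClosed s ∧ μ (t \ s) < ((η / 2 : NNReal) : ℝ≥0∞) :=
      ht.exists_isCompact_isClosed_sdiff_lt htμ.ne hη2
    have hs : μ s ≠ ⊤ := ((measure_mono st).trans_lt htμ).ne
    obtain ⟨V, sV, V_open, h'V, hV⟩ :
        ∃ (V : Set G), V ⊇ s ∧ IsOpen V ∧ μ V < ⊤ ∧ μ (V \ s) < ((η / 2 : NNReal) : ℝ≥0∞) :=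
      s_closed.measurableSet.exists_isOpen_sdiff_lt hs hη2
    obtain ⟨F, hF1, hF3, hF2, hF4⟩ :=
      exists_continuousMap_one_of_isCompact_subset_isOpen s_compact V_open sV
    refine ⟨fun x => (F x : ℂ) * c, ?_, ?_, ?_⟩
    · have hμ : μ ((V \ s) ∪ (t \ s)) ≤ η := by
        refine (measure_union_le _ _).trans ((add_le_add hV.le μs.le).trans (le_of_eq ?_))
        rw [← ENNReal.coe_add, add_halves]
      refine (eLpNorm_mono (fun x => ?_)).trans (hη _ hμ)
      have hFn : ‖(F x : ℂ) * c‖ ≤ ‖c‖ := by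
        rw [norm_mul, Complex.norm_real, Real.norm_eq_abs, abs_of_nonneg (hF4 x).1]
        exact mul_le_of_le_one_left (norm_nonneg _) (hF4 x).2
      have hFn' : ‖(F x : ℂ) * c - c‖ ≤ ‖c‖ := by
        have : (F x : ℂ) * c - c = ((F x - 1 : ℝ) : ℂ) * c := by push_cast; ring
        rw [this, norm_mul, Complex.norm_real, Real.norm_eq_abs]
        refine mul_le_of_le_one_left (norm_nonneg _) ?_
        rw [abs_le]
        constructor <;> linarith [(hF4 x).1, (hF4 x).2]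
      show ‖(F x : ℂ) * c - t.indicator (fun _ => c) x‖ ≤ _
      by_cases hxs : x ∈ s
      · rw [indicator_of_mem (st hxs), hF1 hxs]
        simp
      · by_cases hxt : x ∈ t
        · rw [indicator_of_mem hxt, indicator_of_mem (show x ∈ (V \ s) ∪ (t \ s) from
            Or.inr ⟨hxt, hxs⟩)]
          exact hFn'
        · rw [indicator_of_notMem hxt, sub_zero]
          by_cases hxV : x ∈ V
          · rw [indicator_of_mem (show x ∈ (V \ s) ∪ (t \ s) from Or.inl ⟨hxV, hxs⟩)]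
            exact hFn
          · have h0 : F x = 0 := by
              by_contra h
              exact hxV (hF2 (subset_tsupport _ h))
            rw [h0]; simp
    · exact (Complex.continuous_ofReal.comp F.continuous).mul continuous_const
    · have : HasCompactSupport (fun x => (F x : ℂ)) :=
        HasCompactSupport.comp_left (g := fun r : ℝ => (r : ℂ)) hF3 Complex.ofReal_zero
      exact this.mul_right
  · rintro f g ⟨f1, f2⟩ ⟨g1, g2⟩
    exact ⟨f1.add g1, f2.add g2⟩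
  · rintro f ⟨f1, f2⟩
    exact f1.aestronglyMeasurable

theorem taskN2.{u} : _root_.Beur.TaskN2.{u} := by
  intro G _ _ _ _ _ _ _ μ _ _ ω hω m hm a ε hε
  -- the compact neighbourhood and the bound for the weight
  obtain ⟨V₀, hV₀, hV₀n⟩ := exists_compact_mem_nhds (1 : G)
  obtain ⟨M₀, hM₀⟩ := hV₀.exists_bound_of_continuousOn hω.cont.continuousOn
  set M := max M₀ 0 with hM
  have hMω : ∀ x ∈ V₀, ω x ≤ M := fun x hx =>
    (Real.le_norm_self _).trans ((hM₀ x hx).trans (le_max_left _ _))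
  have hM0 : 0 ≤ M := le_max_right _ _
  set δ : ℝ := ε / (2 * (‖m‖ * M + 1)) with hδ
  have hmM : 0 ≤ ‖m‖ * M := by positivity
  have hδ0 : 0 < δ := by positivity
  -- approximation
  have ham : StronglyMeasurable (a : G → ℂ) := Lp.stronglyMeasurable a
  have hf0 : MemLp (fun x => (ω x : ℂ) * (a : G → ℂ) x) 1 μ := by
    refine ⟨?_, ?_⟩
    · exact ((Complex.measurable_ofReal.comp hω.cont.measurable).mul
        ham.measurable).aestronglyMeasurable
    · have h1 := Lp.eLpNorm_lt_top a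
      rw [eLpNorm_one_eq_lintegral_enorm,
        lintegral_withDensity_eq_lintegral_mul _ (W_meas hω) ham.enorm] at h1
      rw [eLpNorm_one_eq_lintegral_enorm]
      refine lt_of_le_of_lt (le_of_eq (lintegral_congr (fun x => ?_))) h1
      rw [enorm_mul]
      congr 1
      rw [← ofReal_norm_eq_enorm, Complex.norm_real, Real.norm_eq_abs, abs_of_pos (hω.pos x)]
  obtain ⟨g, hgs, hg1, hgc⟩ := dense_cc μ hf0 (ENNReal.ofReal_pos.mpr hδ0).ne'
  set c : G → ℂ := fun x => g x * ((ω x)⁻¹ : ℝ) with hc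
  have hcc : Continuous c :=
    hgc.mul (Complex.continuous_ofReal.comp (hω.cont.inv₀ (fun x => (hω.pos x).ne')))
  have hcs : HasCompactSupport c := hgs.mul_right
  have hcω : ∀ x, ENNReal.ofReal (ω x) * ‖c x‖ₑ = ‖g x‖ₑ := by
    intro x
    have h1 : ENNReal.ofReal (ω x) = ‖(ω x : ℂ)‖ₑ := by
      rw [← ofReal_norm_eq_enorm, Complex.norm_real, Real.norm_eq_abs, abs_of_pos (hω.pos x)]
    rw [h1, ← enorm_mul, hc]
    congr 1
    have : (ω x : ℂ) ≠ 0 := by exact_mod_cast (hω.pos x).ne'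
    push_cast
    field_simp
  have hcm : MemLp c 1 (μ.withDensity (fun s => ENNReal.ofReal (ω s))) := by
    refine ⟨hcc.aestronglyMeasurable, ?_⟩
    rw [eLpNorm_one_eq_lintegral_enorm,
      lintegral_withDensity_eq_lintegral_mul _ (W_meas hω) hcc.enorm.measurable]
    have h1 : ∫⁻ x, ((fun s => ENNReal.ofReal (ω s)) * fun x => ‖c x‖ₑ) x ∂μ = ∫⁻ x, ‖g x‖ₑ ∂μ :=
      lintegral_congr (fun x => hcω x)
    rw [h1]
    exact (hgc.integrable_of_hasCompactSupport hgs).hasFiniteIntegral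
  set ct : L1w μ ω := hcm.toLp c with hct
  have hctc : (ct : G → ℂ) =ᵐ[μ] c := (ae_iff_w hω).mp hcm.coeFn_toLp
  have hac : ‖a - ct‖ ≤ δ := by
    refine norm_le_w hω hδ0.le (h := fun x => ‖(ω x : ℂ) * (a : G → ℂ) x - g x‖ₑ) ?_ ?_
    · have h1 : ((a - ct : L1w μ ω) : G → ℂ) =ᵐ[μ] (a : G → ℂ) - (ct : G → ℂ) :=
        (ae_iff_w hω).mp (Lp.coeFn_sub a ct)
      filter_upwards [h1, hctc] with x hx1 hx2
      rw [hx1, Pi.sub_apply, hx2]
      have h2 : ENNReal.ofReal (ω x) = ‖(ω x : ℂ)‖ₑ := by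
        rw [← ofReal_norm_eq_enorm, Complex.norm_real, Real.norm_eq_abs, abs_of_pos (hω.pos x)]
      rw [h2, ← enorm_mul]
      refine le_of_eq ?_
      congr 1
      have : (ω x : ℂ) ≠ 0 := by exact_mod_cast (hω.pos x).ne'
      rw [hc]
      push_cast
      field_simp
    · rw [eLpNorm_one_eq_lintegral_enorm] at hg1
      exact hg1
  -- uniform continuity
  set K' : Set G := (tsupport c) * V₀⁻¹ with hK'
  have hKc : IsCompact K' := hcs.isCompact.mul hV₀.inv
  set Q : ℝ := (∫⁻ x in K', ENNReal.ofReal (ω x) ∂μ).toReal with hQ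
  have hQfin : ∫⁻ x in K', ENNReal.ofReal (ω x) ∂μ < ⊤ := by
    obtain ⟨R, hR⟩ := hKc.exists_bound_of_continuousOn hω.cont.continuousOn
    calc ∫⁻ x in K', ENNReal.ofReal (ω x) ∂μ ≤ ∫⁻ _ in K', ENNReal.ofReal R ∂μ := by
          refine setLIntegral_mono' hKc.measurableSet (fun x hx => ?_)
          exact ENNReal.ofReal_le_ofReal ((Real.le_norm_self _).trans (hR x hx))
      _ = ENNReal.ofReal R * μ K' := by simp
      _ < ⊤ := ENNReal.mul_lt_top ENNReal.ofReal_lt_top hKc.measure_lt_top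
  have hQ0 : 0 ≤ Q := ENNReal.toReal_nonneg
  set ε' : ℝ := ε / (2 * (Q + 1)) with hε'
  have hε'0 : 0 < ε' := by positivity
  obtain ⟨V, hVn, hVV₀, hV⟩ := unif_cont hcc hcs hV₀ hV₀n hε'0
  refine ⟨V, hVn, ?_⟩
  intro B hBm hBV hBs hB0 hBfin b hb
  have hκ : (μ B).toReal ≠ 0 := (ENNReal.toReal_pos hB0.ne' hBfin.ne).ne'
  have hκ0 : 0 < (μ B).toReal := ENNReal.toReal_pos hB0.ne' hBfin.ne
  -- norm of `b`
  have hbn : ‖b‖ ≤ M := by
    refine norm_le_w hω hM0 (h := fun x => B.indicator (fun _ => ENNReal.ofReal M * (μ B)⁻¹) x) ?_ ?_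
    · filter_upwards [hb] with x hx
      rw [hx]
      by_cases hxB : x ∈ B
      · rw [indicator_of_mem hxB, indicator_of_mem hxB]
        have h1 : ‖(((μ B).toReal)⁻¹ : ℂ)‖ₑ = (μ B)⁻¹ := by
          rw [← ofReal_norm_eq_enorm, norm_inv, Complex.norm_real, Real.norm_eq_abs,
            abs_of_pos hκ0, ENNReal.ofReal_inv_of_pos hκ0, ENNReal.ofReal_toReal hBfin.ne]
        rw [h1]
        gcongr
        exact hMω x (hVV₀ (hBV hxB))
      · rw [indicator_of_notMem hxB, indicator_of_notMem hxB]; simp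
    · rw [lintegral_indicator hBm, lintegral_const, Measure.restrict_apply MeasurableSet.univ,
        univ_inter, mul_assoc, ENNReal.inv_mul_cancel hB0.ne' hBfin.ne, mul_one]
  -- the main term
  have hmain : ‖m ct b - ct‖ ≤ ε' * Q := by
    refine norm_le_w hω (by positivity)
      (h := fun x => K'.indicator (fun x => ENNReal.ofReal ε' * ENNReal.ofReal (ω x)) x) ?_ ?_
    · have h1 : ((m ct b - ct : L1w μ ω) : G → ℂ) =ᵐ[μ] (m ct b : G → ℂ) - (ct : G → ℂ) :=
        (ae_iff_w hω).mp (Lp.coeFn_sub _ _)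
      filter_upwards [h1, hctc, hm ct b] with x hx1 hx2 hx3
      rw [hx1, Pi.sub_apply, hx2, hx3, conv_eq μ hcs hctc hBs hBm hb x]
      have hint1 : IntegrableOn (fun z => c (x * z)) B μ := by
        have : Integrable (fun z => c (x * z)) μ :=
          (hcc.integrable_of_hasCompactSupport hcs).comp_mul_left x
        exact this.integrableOn
      have h2 : (((μ B).toReal)⁻¹ : ℂ) * ∫ z in B, c (x * z) ∂μ - c x =
          (((μ B).toReal)⁻¹ : ℂ) * ∫ z in B, (c (x * z) - c x) ∂μ := by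
        rw [integral_sub hint1 (integrableOn_const hBfin.ne), setIntegral_const, mul_sub,
          Complex.real_smul, measureReal_def]
        congr 1
        rw [← mul_assoc, inv_mul_cancel₀ (by exact_mod_cast hκ), one_mul]
      rw [h2]
      by_cases hxK : x ∈ K'
      · rw [indicator_of_mem hxK, mul_comm]
        gcongr
        rw [← ofReal_norm_eq_enorm]
        refine ENNReal.ofReal_le_ofReal ?_
        rw [norm_mul, norm_inv, Complex.norm_real, Real.norm_eq_abs, abs_of_pos hκ0]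
        have h3 : ‖∫ z in B, (c (x * z) - c x) ∂μ‖ ≤ ε' * μ.real B :=
          norm_setIntegral_le_of_norm_le_const hBfin (fun z hz => (hV x z (hBV hz)).1)
        rw [measureReal_def] at h3
        calc ((μ B).toReal)⁻¹ * ‖∫ z in B, (c (x * z) - c x) ∂μ‖
            ≤ ((μ B).toReal)⁻¹ * (ε' * (μ B).toReal) := by gcongr
          _ = ε' := by field_simp
      · rw [indicator_of_notMem hxK]
        have h3 : ∫ z in B, (c (x * z) - c x) ∂μ = 0 := by
          rw [setIntegral_congr_fun hBm (fun z hz => (hV x z (hBV hz)).2 hxK)]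
          simp
        rw [h3, mul_zero]
        simp
    · rw [lintegral_indicator hKc.measurableSet, lintegral_const_mul _ (W_meas hω),
        ENNReal.ofReal_mul hε'0.le, hQ, ENNReal.ofReal_toReal hQfin.ne]
  -- conclusion
  have hdec : m a b - a = m (a - ct) b + (m ct b - ct) + (ct - a) := by
    rw [map_sub, ContinuousLinearMap.sub_apply]
    abel
  have h1 : ‖m (a - ct) b‖ ≤ ‖m‖ * M * δ := by
    refine (m.le_opNorm₂ _ _).trans ?_
    calc ‖m‖ * ‖a - ct‖ * ‖b‖ ≤ ‖m‖ * δ * M := by gcongr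
      _ = ‖m‖ * M * δ := by ring
  have h2 : ‖ct - a‖ ≤ δ := by rw [norm_sub_rev]; exact hac
  have h3 : ε' * Q ≤ ε / 2 := by
    rw [hε']
    rw [div_mul_eq_mul_div, div_le_div_iff₀ (by positivity) (by norm_num)]
    nlinarith
  have h4 : ‖m‖ * M * δ + δ = ε / 2 := by
    rw [hδ]; field_simp
  calc ‖m a b - a‖ = ‖m (a - ct) b + (m ct b - ct) + (ct - a)‖ := by rw [← hdec]
    _ ≤ ‖m (a - ct) b‖ + ‖m ct b - ct‖ + ‖ct - a‖ := norm_add₃_le
    _ ≤ ‖m‖ * M * δ + ε' * Q + δ := by gcongr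
    _ ≤ ε := by linarith

end Pool.Agent.H941R3.Beur
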