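import Pool.Agent.H723R3.Beur.LC

set_option autoImplicit false
set_option maxHeartbeats 4000000

open MeasureTheory Topology Set Filter
open scoped ENNReal Pointwise

namespace Pool.Agent.H941R3.Beur

variable {G : Type*} [Group G] [TopologicalSpace G] [IsTopologicalGroup G]
  [LocallyCompactSpace G] [T2Space G] [MeasurableSpace G] [BorelSpace G]

lemma inv_null (μ : Measure G) [μ.IsHaarMeasure] [μ.Regular] {N K : Set G} (hN : μ N = 0)
    (hK : IsCompact K) : μ ((N ∩ K)⁻¹) = 0 := by
  rw [← Measure.inv_apply]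
  set ν : Measure G := μ.inv with hν
  obtain ⟨g, hgc, hg0, hg1⟩ := exists_continuous_nonneg_pos (1 : G)
  set D : G → ℝ := fun y => ∫ z, g (z⁻¹ * y) ∂ν with hD
  have D_cont : Continuous D := continuous_integral_apply_inv_mul g.continuous hgc
  have D_pos : ∀ x, 0 < D x := by
    intro x
    have C : Continuous (fun y ↦ g (y⁻¹ * x)) := by fun_prop
    apply (integral_pos_iff_support_of_nonneg _ _).2
    · apply C.isOpen_support.measure_pos ν
      exact ⟨x, by simpa using hg1⟩
    · exact fun y ↦ hg0 (y⁻¹ * x)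
    · apply C.integrable_of_hasCompactSupport
      exact hgc.comp_homeomorph ((Homeomorph.inv G).trans (Homeomorph.mulRight x))
  set I : ℝ := ∫ x, g x ∂μ with hI
  have hIpos : 0 < I := by
    apply (integral_pos_iff_support_of_nonneg _ _).2
    · exact g.continuous.isOpen_support.measure_pos μ ⟨1, by simpa using hg1⟩
    · exact fun y ↦ hg0 y
    · exact g.continuous.integrable_of_hasCompactSupport hgc
  have formula : ∀ F : G → ℝ, Continuous F → HasCompactSupport F →
      ∫ x, F x * D x ∂μ = (∫ y, F y ∂ν) * I := by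
    intro F hF hFc
    have h := Measure.integral_isMulLeftInvariant_isMulRightInvariant_combo (μ := μ) (ν := ν)
      (f := fun x => F x * D x) (g := g) (x₀ := 1) (hF.mul D_cont) hFc.mul_right g.continuous hgc
      hg0 hg1
    rw [h]
    congr 1
    refine integral_congr_ae (Eventually.of_forall (fun y => ?_))
    show F y * D y * (D y)⁻¹ = F y
    rw [mul_assoc, mul_inv_cancel₀ (D_pos y).ne', mul_one]
  obtain ⟨K', hK', hKK'⟩ := exists_compact_superset hK
  obtain ⟨M, hM⟩ := hK'.exists_bound_of_continuousOn D_cont.continuousOn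
  have hM' : ∀ x ∈ K', D x ≤ max M 0 := fun x hx => by
    have := hM x hx
    rw [Real.norm_eq_abs] at this
    exact (le_abs_self _).trans (this.trans (le_max_left _ _))
  have hM0 : 0 ≤ max M 0 := le_max_right _ _
  set M' := max M 0 with hM'def
  -- main bound
  have main : ∀ δ : ℝ, 0 < δ → ν (N ∩ K) ≤ ENNReal.ofReal (M' * δ / I) := by
    intro δ hδ
    have h0 : μ (N ∩ K) < ENNReal.ofReal δ := by
      rw [measure_mono_null inter_subset_left hN]
      exact ENNReal.ofReal_pos.mpr hδ
    obtain ⟨U₀, hU₀, hU₀o, hU₀m⟩ := Set.exists_isOpen_lt_of_lt _ _ h0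
    set U := U₀ ∩ interior K' with hU
    have hUo : IsOpen U := hU₀o.inter isOpen_interior
    have hNU : N ∩ K ⊆ U := fun x hx => ⟨hU₀ hx, hKK' hx.2⟩
    have hUm : μ U ≤ ENNReal.ofReal δ := (measure_mono inter_subset_left).trans hU₀m.le
    refine (measure_mono hNU).trans ?_
    rw [hUo.measure_eq_iSup_isCompact]
    refine iSup_le fun L => iSup_le fun hLU => iSup_le fun hL => ?_
    obtain ⟨F, hF1, hF3, hF2, hF4⟩ := exists_continuousMap_one_of_isCompact_subset_isOpen hL hUo hLU
    have e1 : ν L ≤ ENNReal.ofReal (∫ x, F x ∂ν) := by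
      rw [ofReal_integral_eq_lintegral_ofReal (F.continuous.integrable_of_hasCompactSupport hF3)
        (Eventually.of_forall (fun x => (hF4 x).1))]
      calc ν L = ∫⁻ _ in L, 1 ∂ν := by simp
        _ ≤ ∫⁻ x in L, ENNReal.ofReal (F x) ∂ν := by
            refine setLIntegral_mono' hL.measurableSet (fun x hx => ?_)
            rw [hF1 hx]; simp
        _ ≤ ∫⁻ x, ENNReal.ofReal (F x) ∂ν := setLIntegral_le_lintegral _ _
    refine e1.trans (ENNReal.ofReal_le_ofReal ?_)
    rw [le_div_iff₀ hIpos, ← formula F F.continuous hF3]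
    have e2 : ∫ x, F x * D x ∂μ = ∫ x in U, F x * D x ∂μ := by
      refine (setIntegral_eq_integral_of_forall_compl_eq_zero (fun x hx => ?_)).symm
      have : F x = 0 := by
        by_contra h
        exact hx (hF2 (subset_tsupport _ h))
      rw [this, zero_mul]
    rw [e2]
    have hUfin : μ U < ⊤ := lt_of_le_of_lt hUm ENNReal.ofReal_lt_top
    have e3 : ‖∫ x in U, F x * D x ∂μ‖ ≤ M' * μ.real U := by
      refine norm_setIntegral_le_of_norm_le_const hUfin (fun x hx => ?_)
      rw [norm_mul, Real.norm_eq_abs, Real.norm_eq_abs, abs_of_nonneg (hF4 x).1,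
        abs_of_pos (D_pos x)]
      calc F x * D x ≤ 1 * M' :=
            mul_le_mul (hF4 x).2 (hM' x (interior_subset hx.2)) (D_pos x).le zero_le_one
        _ = M' := one_mul _
    have e4 : μ.real U ≤ δ := ENNReal.toReal_le_of_le_ofReal hδ.le hUm
    calc ∫ x in U, F x * D x ∂μ ≤ ‖∫ x in U, F x * D x ∂μ‖ := Real.le_norm_self _
      _ ≤ M' * μ.real U := e3
      _ ≤ M' * δ := by gcongr
  -- conclusion
  by_contra hne
  have hpos : 0 < ν (N ∩ K) := pos_iff_ne_zero.mpr hne
  have h1 := main 1 one_pos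
  have hfin : ν (N ∩ K) ≠ ⊤ := ne_top_of_le_ne_top ENNReal.ofReal_ne_top h1
  set r := (ν (N ∩ K)).toReal with hr
  have hr0 : 0 < r := ENNReal.toReal_pos hne hfin
  have h2 := main (r * I / (2 * (M' + 1))) (by positivity)
  have h3 : r ≤ M' * (r * I / (2 * (M' + 1))) / I :=
    ENNReal.toReal_le_of_le_ofReal (by positivity) h2
  have h4 : M' * (r * I / (2 * (M' + 1))) / I = r * (M' / (2 * (M' + 1))) := by
    field_simp
  rw [h4] at h3
  have h5 : M' / (2 * (M' + 1)) < 1 := by
    rw [div_lt_one (by positivity)]; linarith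
  nlinarith

end Pool.Agent.H941R3.Beur
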